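import Pool.Agent.NTS.StmtsE

/-!
# Row BAL of the squad NTS: large balls become half spaces
-/

set_option autoImplicit false

open Matrix Filter Topology

namespace Pool.Agent.NTS.H58

open Pool.Agent.PFS Pool.Agent.PFJ Pool.Agent.NTS

theorem bal : BalStmt := by
  intro K u h1 h2
  set S : ℕ → ℝ := fun m => ∑ i, ((u m i : ℤ) : ℝ) ^ 2 with hS
  set R : ℕ → ℝ := fun m => √(S m) with hR
  have hS0 : ∀ m, 0 ≤ S m := fun m => Finset.sum_nonneg fun i _ => sq_nonneg _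
  have hR0 : ∀ m, 0 ≤ R m := fun m => Real.sqrt_nonneg _
  have hRS : ∀ m, R m ^ 2 = S m := fun m => Real.sq_sqrt (hS0 m)
  have hRt : Tendsto R atTop atTop := by
    rw [tendsto_atTop]
    intro b
    obtain ⟨B, hB⟩ := exists_int_gt (b ^ 2)
    filter_upwards [h2 B] with m hm
    have h3 : ((B : ℤ) : ℝ) ≤ S m := by
      have : ((B : ℤ) : ℝ) ≤ ((∑ i, (u m i) ^ 2 : ℤ) : ℝ) := by exact_mod_cast hm
      simpa [hS] using this
    exact (le_abs_self b).trans (Real.abs_le_sqrt (by linarith))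
  -- the sum of the coordinates is bounded
  have hsum : ∀ m, |∑ i, ((u m i : ℤ) : ℝ)| ≤ K := by
    intro m
    have e : ∀ t : ℤ, (0 : ℝ) ≤ 2 * (t : ℝ) * (∑ i, ((u m i : ℤ) : ℝ)) + K * (t : ℝ) ^ 2 := by
      intro t
      have h3 : ((∑ i, (u m i) ^ 2 : ℤ) : ℝ) ≤ ((∑ i, (u m i + t) ^ 2 : ℤ) : ℝ) := by
        exact_mod_cast h1 m t
      push_cast at h3
      have h4 : ∑ i, (((u m i : ℤ) : ℝ) + (t : ℝ)) ^ 2 =
          ∑ i, ((u m i : ℤ) : ℝ) ^ 2 + 2 * (t : ℝ) * (∑ i, ((u m i : ℤ) : ℝ)) + K * (t : ℝ) ^ 2 := by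
        rw [Finset.mul_sum, ← Finset.sum_add_distrib]
        have : (K : ℝ) * (t : ℝ) ^ 2 = ∑ _i : Fin K, (t : ℝ) ^ 2 := by simp
        rw [this, ← Finset.sum_add_distrib]
        exact Finset.sum_congr rfl fun i _ => by ring
      rw [h4] at h3
      linarith
    have e1 := e 1
    have e2 := e (-1)
    push_cast at e1 e2
    have hK : (0 : ℝ) ≤ K := Nat.cast_nonneg K
    rw [abs_le]
    constructor <;> nlinarith
  set x : ℕ → Fin K → ℝ := fun m i => - ((u m i : ℤ) : ℝ) / R m with hx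
  have hui : ∀ m i, |((u m i : ℤ) : ℝ)| ≤ R m := by
    intro m i
    apply Real.abs_le_sqrt
    exact Finset.single_le_sum (f := fun i => ((u m i : ℤ) : ℝ) ^ 2) (fun j _ => sq_nonneg _)
      (Finset.mem_univ i)
  have hxm : ∀ m, x m ∈ Set.Icc (fun _ : Fin K => (-1 : ℝ)) (fun _ => 1) := by
    intro m
    have h3 : ∀ i, |x m i| ≤ 1 := by
      intro i
      simp only [hx]
      rw [abs_div, abs_neg, abs_of_nonneg (hR0 m)]
      exact div_le_one_of_le₀ (hui m i) (hR0 m)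
    exact ⟨fun i => (abs_le.1 (h3 i)).1, fun i => (abs_le.1 (h3 i)).2⟩
  obtain ⟨ν, _, φ, hφ, hlim⟩ := isCompact_Icc.tendsto_subseq hxm
  have hφt : Tendsto φ atTop atTop := hφ.tendsto_atTop
  have hl : ∀ i, Tendsto (fun m => x (φ m) i) atTop (𝓝 (ν i)) := by
    intro i
    exact ((continuous_apply i).tendsto ν).comp hlim
  have hRφ : Tendsto (fun m => R (φ m)) atTop atTop := hRt.comp hφt
  have hpos : ∀ᶠ m in atTop, 1 ≤ R (φ m) := hRφ.eventually_ge_atTop 1
  refine ⟨φ, ν, hφ, ?_, ?_, ?_⟩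
  · intro h0
    have h3 : Tendsto (fun m => ∑ i, (x (φ m) i) ^ 2) atTop (𝓝 (∑ i, (ν i) ^ 2)) :=
      tendsto_finsetSum _ fun i _ => (hl i).pow 2
    have h4 : Tendsto (fun m => ∑ i, (x (φ m) i) ^ 2) atTop (𝓝 1) := by
      refine tendsto_const_nhds.congr' ?_
      filter_upwards [hpos] with m hm
      have h5 : ∑ i, (x (φ m) i) ^ 2 = S (φ m) / R (φ m) ^ 2 := by
        simp only [hx, hS]
        rw [Finset.sum_div]
        exact Finset.sum_congr rfl fun i _ => by rw [div_pow, neg_sq]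
      rw [h5, hRS, div_self]
      rw [← hRS]
      positivity
    have h5 := tendsto_nhds_unique h3 h4
    rw [h0] at h5
    simp at h5
  · have h3 : Tendsto (fun m => ∑ i, x (φ m) i) atTop (𝓝 (∑ i, ν i)) :=
      tendsto_finsetSum _ fun i _ => hl i
    have h4 : Tendsto (fun m => ∑ i, x (φ m) i) atTop (𝓝 0) := by
      have h5 : Tendsto (fun m => (K : ℝ) / R (φ m)) atTop (𝓝 0) := hRφ.const_div_atTop _
      refine squeeze_zero_norm (fun m => ?_) h5
      have h6 : ∑ i, x (φ m) i = - (∑ i, ((u (φ m) i : ℤ) : ℝ)) / R (φ m) := by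
        simp only [hx]
        rw [← Finset.sum_div, Finset.sum_neg_distrib]
      rw [h6, Real.norm_eq_abs, abs_div, abs_neg, abs_of_nonneg (hR0 _)]
      exact div_le_div_of_nonneg_right (hsum _) (hR0 _)
    exact tendsto_nhds_unique h3 h4
  · intro v hv
    have h3 : Tendsto (fun m => ∑ i, x (φ m) i * (v i : ℝ)) atTop (𝓝 (∑ i, ν i * (v i : ℝ))) :=
      tendsto_finsetSum _ fun i _ => (hl i).mul_const _
    set δ := ∑ i, ν i * (v i : ℝ) with hδ
    set A := ∑ i, ((v i : ℤ) : ℝ) ^ 2 with hA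
    filter_upwards [h3.eventually (lt_mem_nhds (by linarith : δ / 2 < δ)), hpos,
      hRφ.eventually_gt_atTop (A / δ)] with m hm1 hm2 hm3
    have hRp : 0 < R (φ m) := by linarith
    have h4 : ∑ i, x (φ m) i * (v i : ℝ) =
        - (∑ i, ((u (φ m) i : ℤ) : ℝ) * (v i : ℝ)) / R (φ m) := by
      simp only [hx]
      rw [← Finset.sum_neg_distrib, Finset.sum_div]
      exact Finset.sum_congr rfl fun i _ => by ring
    rw [h4, lt_div_iff₀ hRp] at hm1
    rw [div_lt_iff₀ hv] at hm3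
    have h5 : ∑ i, (((u (φ m) i : ℤ) : ℝ) + (v i : ℝ)) ^ 2 =
        ∑ i, ((u (φ m) i : ℤ) : ℝ) ^ 2 + 2 * (∑ i, ((u (φ m) i : ℤ) : ℝ) * (v i : ℝ)) + A := by
      rw [hA, Finset.mul_sum, ← Finset.sum_add_distrib, ← Finset.sum_add_distrib]
      exact Finset.sum_congr rfl fun i _ => by ring
    have h6 : ∑ i, (((u (φ m) i : ℤ) : ℝ) + (v i : ℝ)) ^ 2 <
        ∑ i, ((u (φ m) i : ℤ) : ℝ) ^ 2 := by
      rw [h5]
      nlinarith
    exact_mod_cast h6

end Pool.Agent.NTS.H58
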