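import Pool.Agent.NTS.StmtsE
import Pool.Agent.Helper60_PFS.Simp

/-!
# Row LAB of the squad NTS: labels, no drift
-/

set_option autoImplicit false

open Matrix Filter Topology

namespace Pool.Agent.NTS.H58

open Pool.Agent.PFS Pool.Agent.PFJ Pool.Agent.NTS

theorem lab : LabStmt := by
  intro n C hC K x x' w hx hx' hw hlx hlx'
  have hsum : Tendsto (fun m => ∑ i, x m i) atTop (𝓝 (∑ i, w i)) :=
    tendsto_finsetSum _ fun i _ => hlx i
  have hsum' : Tendsto (fun m => ∑ i, x' m i) atTop (𝓝 (∑ i, w i)) :=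
    tendsto_finsetSum _ fun i _ => hlx' i
  have hev : ∀ i : Fin K, ∀ᶠ m in atTop,
      (1 / 2 : ℝ) • (∑ j, x m j) + (x' m i - x m i) ∈ C ∧
      (1 / 2 : ℝ) • (∑ j, x' m j) + (x m i - x' m i) ∈ C := by
    intro i
    have hp : (1 / 2 : ℝ) • (∑ j, w j) + (w i - w i) ∈ C := by
      rw [sub_self, add_zero, Finset.smul_sum]
      exact hw.pos (fun _ => 1 / 2) fun _ => by norm_num
    have h1 : Tendsto (fun m => (1 / 2 : ℝ) • (∑ j, x m j) + (x' m i - x m i)) atTop
        (𝓝 ((1 / 2 : ℝ) • (∑ j, w j) + (w i - w i))) :=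
      (hsum.const_smul _).add ((hlx' i).sub (hlx i))
    have h2 : Tendsto (fun m => (1 / 2 : ℝ) • (∑ j, x' m j) + (x m i - x' m i)) atTop
        (𝓝 ((1 / 2 : ℝ) • (∑ j, w j) + (w i - w i))) :=
      (hsum'.const_smul _).add ((hlx i).sub (hlx' i))
    exact (h1.eventually (hC.isOpen.mem_nhds hp)).and (h2.eventually (hC.isOpen.mem_nhds hp))
  have hev' := (eventually_all).2 hev
  filter_upwards [hev'] with m hm
  rintro u ⟨c, hc, h1, h2⟩
  have hclx : ∀ j, x m j ∈ closure C := fun j => (hx m).cl j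
  have hclx' : ∀ j, x' m j ∈ closure C := fun j => (hx' m).cl j
  refine ⟨c, hc, fun i => ?_, fun i => ?_, h1, h2⟩
  · obtain ⟨φ, hφC, hφcl, hφ0, hφi⟩ := Pool.Agent.PFS.H60.fun_ n C hC (Fin K) (x' m) i (hx' m)
    have h3 := hφC _ (hm i).2
    have h4 := hφcl _ h1
    have e1 : φ (∑ j, x' m j) = φ (x' m i) := by
      rw [map_sum, Finset.sum_eq_single i (fun j _ hj => hφ0 j hj) (by simp)]
    have e2 : φ (∑ j, c j • x' m j) = c i * φ (x' m i) := by
      rw [map_sum, Finset.sum_eq_single i (fun j _ hj => by rw [map_smul, hφ0 j hj, smul_zero])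
        (by simp), map_smul, smul_eq_mul]
    have e3 : (2 : ℝ) ^ (u i) * φ (x m i) ≤ φ (pt (x m) u) := by
      unfold pt
      rw [map_sum]
      simp only [map_smul, smul_eq_mul]
      exact Finset.single_le_sum (f := fun j => (2 : ℝ) ^ (u j) * φ (x m j))
        (fun j _ => mul_nonneg (by positivity) (hφcl _ (hclx j))) (Finset.mem_univ i)
    rw [map_add, map_smul, map_sub, e1, smul_eq_mul] at h3
    rw [map_sub, e2] at h4
    have h5 : (0 : ℝ) < 2 ^ (u i) := by positivity
    have h6 : (2 : ℝ) ^ (u i) * (φ (x' m i) / 2) ≤ c i * φ (x' m i) := by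
      have : (2 : ℝ) ^ (u i) * (φ (x' m i) / 2) ≤ (2 : ℝ) ^ (u i) * φ (x m i) :=
        mul_le_mul_of_nonneg_left (by linarith) h5.le
      linarith
    have h7 : ((2 : ℝ) ^ (u i) / 2) * φ (x' m i) ≤ c i * φ (x' m i) := by
      linarith
    have h8 := le_of_mul_le_mul_right h7 hφi
    have := hc i
    linarith
  · obtain ⟨φ, hφC, hφcl, hφ0, hφi⟩ := Pool.Agent.PFS.H60.fun_ n C hC (Fin K) (x m) i (hx m)
    have h3 := hφC _ (hm i).1
    have h4 := hφcl _ h2
    have e1 : φ (∑ j, x m j) = φ (x m i) := by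
      rw [map_sum, Finset.sum_eq_single i (fun j _ hj => hφ0 j hj) (by simp)]
    have e2 : φ (pt (x m) u) = 2 ^ (u i) * φ (x m i) := by
      unfold pt
      rw [map_sum, Finset.sum_eq_single i (fun j _ hj => by rw [map_smul, hφ0 j hj, smul_zero])
        (by simp), map_smul, smul_eq_mul]
    have e3 : c i * φ (x' m i) ≤ φ (∑ j, c j • x' m j) := by
      rw [map_sum]
      simp only [map_smul, smul_eq_mul]
      exact Finset.single_le_sum (f := fun j => c j * φ (x' m j))
        (fun j _ => mul_nonneg (hc j).le (hφcl _ (hclx' j))) (Finset.mem_univ i)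
    rw [map_add, map_smul, map_sub, e1, smul_eq_mul] at h3
    rw [map_sub, map_smul, e2, smul_eq_mul] at h4
    have h6 : c i * (φ (x m i) / 2) ≤ c i * φ (x' m i) :=
      mul_le_mul_of_nonneg_left (by linarith) (hc i).le
    have h7 : (c i / 4) * φ (x m i) ≤ 2 ^ (u i) * φ (x m i) := by
      linarith
    have h8 := le_of_mul_le_mul_right h7 hφi
    linarith

end Pool.Agent.NTS.H58
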